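import Pool.Agent.Lib_MP_436432_co.Main

/-!
# MP_436432_co: edge-connectivity keeping trees under vertex deletion (Q1 in full)
-/

namespace Pool.Agent.Results.MP_436432_co.EdgeConnectivityKeepingTrees

open EK

/-- For every `k ≥ 1`, every tree `T` (of order `Nat.card W`) and every `k`-edge-connected finite simple
graph `G` with minimum degree at least `k + |T| - [k = 1]` there is a copy of `T` in `G` whose removal
leaves a `k`-edge-connected graph. -/
theorem result (k : ℕ) (hk : 1 ≤ k) {V W : Type} [Finite V] [Finite W] (G : SimpleGraph V)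
    (T : SimpleGraph W) (hT : T.IsTree) (hG : EdgeConn k G)
    (hd : ∀ v, k + Nat.card W ≤ (G.neighborSet v).ncard + (if k = 1 then 1 else 0)) :
    ∃ φ : W ↪ V, (∀ a b, T.Adj a b → G.Adj (φ a) (φ b)) ∧
      EdgeConn k (G.induce (Set.range φ)ᶜ) :=
  main G T hT k hk hG hd

end Pool.Agent.Results.MP_436432_co.EdgeConnectivityKeepingTrees
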